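import Pool.Agent.U536.CF.Sc
import Pool.Agent.U536.CF.Lg
import Pool.Agent.Results.MP_56e040_nt.RelationsOneLargeArgument

/-!
# Zagier's dimensions and the relations between multiple zeta values of ALL weights near integers with large common
factors with the values of multiplicative functions

Let `a_n` be the number of admissible indices of weight `n`, `Z_n` the `ℚ`-space spanned by the multiple zeta values of
weight `n` and `d_n` Zagier's numbers. Let `f` be a positive multiplicative function of at most polynomial growth such that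
`f p ≤ M p` for the large primes `p`, with different values at different large primes; for example Euler's function or the
sum of the divisors. Let `G` have steps bounded below by a positive constant and growth at most `v^d`, for example `α v^d`.
Let `W₀` be an integer, `C > 1`, `B < 1`, `0 ≤ c < 2 B - 1` and `0 ≤ κ < ρ ≤ 1`. For all large `N` and for all `m ≤ N` but
`N exp (-(log N)^c)`, for EVERY integer `w ≥ exp ((log N)^B)` with `gcd(w, f(m)) ≥ w^ρ` and EVERY weight `k ≥ 1` with
`|k - G w| ≤ w ^ κ`: for all `W ≤ W₀` the relations with integer coefficients of absolute value at most `C ^ k` between the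
multiple zeta values of weight `k` with an argument at least `k - W` span a space of dimension
`∑_{n ≤ W} 2 ^ (W - n) (a_n - dim Z_n)`. So for EACH such single weight `k`: Zagier's conjecture `dim Z_n = d_n` holds for all
`n ≤ W₀` if and only if these dimensions are `∑_{n ≤ W} 2 ^ (W - n) (a_n - d_n)` for all `W ≤ W₀`; there is no such relation
for `W = 2`, and for `W = 3` they span a line. The integers `w` include all large divisors of `f(m)`; for Euler's function,
the orders of all units modulo `m`.

Proof. The file `RelationsOneLargeArgument` of the starting library bounds the number of the exceptional weights in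
`[N, κ N]` by a constant, for each `W`. Write `m = k' u` with `u` squarefree and composed of primes larger than `N^(1/J)`,
`J = (log N)^s`, and `k' ≤ exp (4 (log N)^s)`; this is possible for all `m ≤ N` but very few. If `v ∣ f(k') f(u)`, then the
number of such `u ≤ N / k'` is at most `N / (k' v')` times `(log N)^O(J)` times the number `τ_J(v')` of the ordered
factorizations of `v'` into `J` factors, `v' = v / gcd(v, f(k'))`. The divisors `v ≥ w^ρ` of the exceptional `w` are few, and
the inequality `τ_J^q ≤ τ_K` for `K ≥ J^q` and Hölder's inequality bound the sum of `τ_J(v) / v` over them.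
-/

set_option autoImplicit false

namespace Pool.Agent.Results.MP_56e040_nt.CommonFactors

open Pool.Agent.N733.TG (LM Expanding lm_totient lm_sigma expanding_pow)
open Pool.Agent.U536.CF (Common common_scale_nat common_of_dvd common_order exists_small)
open RelationsOneLargeArgument (relationSpace weightSpace numIndices zagier AlmostAll)

/-- The weight `k` is as expected up to `W₀`, for the relations with integer coefficients of absolute value at most `H`: (1)
for all `W ≤ W₀` the relations between the multiple zeta values of weight `k` with an argument at least `k - W` span a space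
of dimension `∑_{n ≤ W} 2 ^ (W - n) (a_n - dim Z_n)`; (2) `dim Z_n = d_n` for all `n ≤ W₀` if and only if these dimensions are
`∑_{n ≤ W} 2 ^ (W - n) (a_n - d_n)`, for all `W ≤ W₀`; (3) there is no such relation for `W = 2`, and they span a line for
`W = 3`. -/
def Expected (W₀ k : ℕ) (H : ℝ) : Prop :=
  (∀ W ≤ W₀, Module.finrank ℚ (relationSpace W k H) +
    ∑ n ∈ Finset.range (W + 1), 2 ^ (W - n) * Module.finrank ℚ (weightSpace n) =
      ∑ n ∈ Finset.range (W + 1), 2 ^ (W - n) * numIndices n) ∧
  ((∀ n ≤ W₀, Module.finrank ℚ (weightSpace n) = zagier n) ↔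
    ∀ W ≤ W₀, Module.finrank ℚ (relationSpace W k H) + ∑ n ∈ Finset.range (W + 1), 2 ^ (W - n) * zagier n =
      ∑ n ∈ Finset.range (W + 1), 2 ^ (W - n) * numIndices n) ∧
  relationSpace 2 k H = ⊥ ∧ Module.finrank ℚ (relationSpace 3 k H) = 1

/-- the weighted sums determine the numbers -/
lemma eq_of_sums_le (x y : ℕ → ℕ) (W₀ : ℕ) (h : ∀ W ≤ W₀, ∑ n ∈ Finset.range (W + 1), 2 ^ (W - n) * x n =
    ∑ n ∈ Finset.range (W + 1), 2 ^ (W - n) * y n) : ∀ n ≤ W₀, x n = y n := by
  have step : ∀ (z : ℕ → ℕ) (W : ℕ), ∑ n ∈ Finset.range (W + 2), 2 ^ (W + 1 - n) * z n =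
      2 * ∑ n ∈ Finset.range (W + 1), 2 ^ (W - n) * z n + z (W + 1) := by
    intro z W
    rw [Finset.sum_range_succ, Finset.mul_sum, Nat.sub_self, pow_zero, one_mul]
    congr 1
    refine Finset.sum_congr rfl fun n hn => ?_
    rw [Finset.mem_range] at hn
    rw [show W + 1 - n = (W - n) + 1 by omega, pow_succ]
    ring
  intro n hn
  cases n with
  | zero => simpa using h 0 hn
  | succ W =>
    have h1 := h (W + 1) hn
    rw [step, step, h W (by omega)] at h1
    omega

/-- almost all weights are as expected -/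
lemma expected (W₀ : ℕ) : AlmostAll fun C k => Expected W₀ k (C ^ k) := by
  obtain ⟨h1, -, h3, h4⟩ := RelationsOneLargeArgument.result
  have h5 : ∀ W₀ : ℕ, AlmostAll fun C k => ∀ W ≤ W₀, Module.finrank ℚ (relationSpace W k (C ^ k)) +
      ∑ n ∈ Finset.range (W + 1), 2 ^ (W - n) * Module.finrank ℚ (weightSpace n) =
        ∑ n ∈ Finset.range (W + 1), 2 ^ (W - n) * numIndices n := by
    intro W₀
    induction W₀ with
    | zero =>
      refine (h1 0).mono fun C k h W hW => ?_
      obtain rfl : W = 0 := by omega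
      exact h
    | succ W₀ ih =>
      refine (ih.and (h1 (W₀ + 1))).mono fun C k h W hW => ?_
      rcases Nat.lt_or_ge W (W₀ + 1) with hlt | hge
      · exact h.1 W (by omega)
      · obtain rfl : W = W₀ + 1 := by omega
        exact h.2
  refine (((h5 W₀).and h3).and h4).mono fun C k h => ⟨h.1.1, ⟨fun hz W hW => ?_, fun hd => ?_⟩, h.1.2, h.2⟩
  · have h6 := h.1.1 W hW
    have h7 : ∑ n ∈ Finset.range (W + 1), 2 ^ (W - n) * zagier n =
        ∑ n ∈ Finset.range (W + 1), 2 ^ (W - n) * Module.finrank ℚ (weightSpace n) := by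
      refine Finset.sum_congr rfl fun n hn => ?_
      rw [Finset.mem_range] at hn
      rw [hz n (by omega)]
    rw [h7]
    exact h6
  · refine eq_of_sums_le _ _ W₀ fun W hW => ?_
    have h6 := h.1.1 W hW
    have h7 := hd W hW
    exact Nat.add_left_cancel (h6.trans h7.symm)

/-- the number of the exceptional weights in `(M / 2, M]` -/
lemma count (W₀ : ℕ) {C : ℝ} (hC : 1 < C) : ∃ K M₀ : ℕ, ∀ M : ℕ, M₀ ≤ M →
    {k : ℕ | 1 ≤ k ∧ k ≤ M ∧ (M < 2 * k ∧ ¬ Expected W₀ k (C ^ k))}.ncard ≤ K := by
  obtain ⟨K, hK⟩ := expected W₀ 2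
  obtain ⟨N0, hN0⟩ := hK C hC
  refine ⟨K, 2 * N0, fun M hM => le_trans (Set.ncard_le_ncard ?_ ?_) (hN0 ((M + 1) / 2) (by omega))⟩
  · rintro k ⟨-, h2, h3, h4⟩
    exact ⟨⟨by omega, by omega⟩, h4⟩
  · refine (Set.finite_Icc ((M + 1) / 2) (2 * ((M + 1) / 2))).subset ?_
    rintro k ⟨h1, -⟩
    exact h1

/-- **Zagier's dimensions and the relations between multiple zeta values of ALL weights near integers with large common
factors with the values of a multiplicative function.** Let `f` be multiplicative and positive, of at most polynomial growth,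
with `f p ≤ M p` at the large primes, and injective there (`LM`). Let `G` have steps `≥ a > 0` and growth at most `v^d`. Let
`W₀` be an integer, `C > 1`, `B < 1`, `0 ≤ c < 2 B - 1` and `0 ≤ κ < ρ ≤ 1`. For all large `N`, for all `m ≤ N` but
`N exp (-(log N)^c)`, for EVERY integer `w ≥ exp ((log N)^B)` with `gcd(w, f(m)) ≥ w^ρ` and EVERY weight `k ≥ 1` with
`|k - G w| ≤ w ^ κ`: `k` is as expected up to `W₀`, for the relations with integer coefficients of absolute value at most
`C ^ k`. All divisors `w ≥ exp ((log N)^B)` of `f(m)` are such integers `w`, and for Euler's function the orders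
`≥ exp ((log N)^B)` of the units modulo `m`. Euler's function and the sum of the divisors are examples of `f`, and `α v^d`
with `α > 0`, `d ≥ 1` is an example of `G`. -/
theorem result :
    (∀ (W₀ : ℕ) (C : ℝ), 1 < C → ∀ f : ℕ → ℕ, LM f → ∀ (G : ℕ → ℝ) (d : ℝ), Expanding G d →
      ∀ κ ρ B c : ℝ, 0 ≤ κ → κ < ρ → ρ ≤ 1 → B < 1 → 0 ≤ c → c < 2 * B - 1 → ∃ N₀ : ℕ, ∀ N : ℕ, N₀ ≤ N →
        ({m : ℕ | 1 ≤ m ∧ m ≤ N ∧ ¬ ∀ w : ℕ, Common f B ρ N m w → ∀ k : ℕ, 1 ≤ k → |(k : ℝ) - G w| ≤ (w : ℝ) ^ κ →
          Expected W₀ k (C ^ k)}.ncard : ℝ) ≤ N * Real.exp (-(Real.log N ^ c))) ∧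
    (LM Nat.totient ∧ LM (fun m => ∑ d ∈ m.divisors, d)) ∧
    (∀ α d : ℝ, 0 < α → 1 ≤ d → Expanding (fun v => α * (v : ℝ) ^ d) d) ∧
    (∀ (f : ℕ → ℕ) (B ρ : ℝ) (N m w : ℕ), ρ ≤ 1 → Real.exp (Real.log N ^ B) ≤ (w : ℝ) → w ∣ f m → Common f B ρ N m w) ∧
    ∀ (B ρ : ℝ) (N m : ℕ), ρ ≤ 1 → ∀ x : (ZMod m)ˣ, Real.exp (Real.log N ^ B) ≤ (orderOf x : ℝ) →
      Common Nat.totient B ρ N m (orderOf x) := by
  refine ⟨?_, ⟨lm_totient, lm_sigma⟩,
    fun α d hα hd => expanding_pow hα hd, fun f B ρ N m w hρ hw hd => common_of_dvd hρ hw hd,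
    fun B ρ N m hρ x hx => common_order hρ x hx⟩
  intro W₀ C hC f hf G d hG κ ρ B c hκ h1 hρ hB hc hcb
  obtain ⟨s, hs, hs1⟩ := exists_small hG.one_le h1
  obtain ⟨K, M₀, hK⟩ := count W₀ hC
  obtain ⟨N₁, hN₁⟩ := common_scale_nat (s := s) (C := K) hs (max M₀ 1) 0 hf hG hκ hs1 hρ hB hc hcb
  refine ⟨N₁, fun N hN => ?_⟩
  have key := hN₁ (fun M k => M < 2 * k ∧ ¬ Expected W₀ k (C ^ k)) (fun k => ¬ Expected W₀ k (C ^ k)) (fun M hM => ?_)
    (fun n M _ _ _ h h' => ⟨h, h'⟩) N hN
  · simpa only [not_not] using key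
  · have h2 := hK M ((le_max_left _ _).trans hM)
    have h3 : (1 : ℝ) ≤ M := by exact_mod_cast (le_max_right _ _).trans hM
    have h4 : (1 : ℝ) ≤ (M : ℝ) ^ s := Real.one_le_rpow h3 hs.le
    have h5 : (0 : ℝ) ≤ K := Nat.cast_nonneg K
    calc ({k : ℕ | 1 ≤ k ∧ k ≤ M ∧ (M < 2 * k ∧ ¬ Expected W₀ k (C ^ k))}.ncard : ℝ) ≤ K := by exact_mod_cast h2
      _ ≤ K * (M : ℝ) ^ s := by nlinarith

end Pool.Agent.Results.MP_56e040_nt.CommonFactors
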