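import Mathlib
import Pool.Agent.U831.AF.TD1

/-!
# At each scale: the dimensions of all weight spaces grow, or all values up to weight `w` are transcendental

Let `t_1, …, t_f` be elements of the spaces `Z_p`, `p ≤ w`, of weights `w_j`, and let
`u_(n,1), …, u_(n,g_n)` span `Z_n` for `n ≤ w'`. For every large `X` one of the following two
statements is true, on the whole range of scales `N` between `X` and `X ^ M`.

(T) For every integer polynomial `P` in the `t_j`, of degree at most `D` in each and of height at most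
`N ^ κ`, the multiples of `P(t)` are equidistributed modulo one with a power saving at the scale `N`,
unless all weight parts of `P(t)` of positive weight are negligible (at most `N ^ (-κ κ')`). In particular
all nonconstant integer polynomials `F(t_j)` in one nonzero `t_j` of positive weight, of degree at most `D`
and height at most `N ^ κ`, are equidistributed: at these scales `t_j` is transcendental.

(G) For every weight `2 ≤ n ≤ w'` there is a rational space `W` of codimension at least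
`⌊(n - 3 (n mod 2)) / (2 w)⌋` such that the forms `(∑ b_i u_(n,i)) / π ^ n` (for odd `n` the divisor is
`ζ(3) π ^ (n - 3)`) with `b` of height at most `N ^ κ` outside `W` are equidistributed with a power saving:
at these scales `Z_n` has dimension at least about `n / (2 w)`.

The proof: bad distribution gives small relations between `1` and the numbers (`near_at`). Along a
sequence of scales and an ultrafilter the sequences of polynomial growth modulo the negligible ones form
a field; there either all `t_j / π ^ w_j` are algebraic over the fractions of integer sequences, and all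
relations are homogeneous because `π` is transcendental over them, or some `t_j / π ^ w_j` is
transcendental, and its even powers give independent elements of `Z_n / π ^ n`.
-/

set_option autoImplicit false

namespace Pool.Agent.Results.MP_56e040_nt.DimensionOrTranscendence

open Polynomial

/-- the `ℚ`-span of the multiple zeta values of weight `n` -/
noncomputable def Z (n : ℕ) : Submodule ℚ ℝ :=
  Submodule.span ℚ
    {x : ℝ | ∃ t : ℕ, ∃ k : Fin t → ℕ,
      (∀ i, 1 ≤ k i) ∧ (∀ h : 0 < t, 2 ≤ k ⟨0, h⟩) ∧ (∑ i, k i) = n ∧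
      x = ∑' m : {m : Fin t → ℕ // StrictAnti m ∧ ∀ i, 1 ≤ m i},
            ∏ i, (((m.1 i : ℕ) : ℝ) ^ (k i))⁻¹}

/-- the number of `m < N` with the fractional part of `m θ + γ` in `[u, v)` -/
noncomputable def count (θ γ u v : ℝ) (N : ℕ) : ℕ :=
  ((Finset.range N).filter fun m : ℕ => u ≤ Int.fract (m * θ + γ) ∧ Int.fract (m * θ + γ) < v).card

/-- the sequence `m θ + γ`, `m < N`, is equidistributed with an error at most `N ^ (1 - κ)` -/
def Good (κ : ℝ) (N : ℕ) (θ : ℝ) : Prop :=
  ∀ γ u v : ℝ, 0 ≤ u → u ≤ v → v ≤ 1 → |(count θ γ u v N : ℝ) - (v - u) * N| ≤ (N : ℝ) ^ (1 - κ)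

/-- the monomial `∏ t_j ^ α_j` -/
noncomputable def mono {f D : ℕ} (t : Fin f → ℝ) (α : Fin f → Fin (D + 1)) : ℝ := ∏ j, t j ^ (α j : ℕ)

/-- its weight `∑ α_j w_j` -/
def weight {f D : ℕ} (wt : Fin f → ℕ) (α : Fin f → Fin (D + 1)) : ℕ := ∑ j, (α j : ℕ) * wt j

/-- the divisors: `π ^ n` for even `n`, `ζ(3) π ^ (n - 3)` for odd `n` -/
noncomputable def den (n : ℕ) : ℝ :=
  if n % 2 = 0 then Real.pi ^ n else (∑' m : ℕ, (1 : ℝ) / ((m : ℝ) + 1) ^ 3) * Real.pi ^ (n - 3)

/-- **Dimension or transcendence at each scale.** -/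
theorem result (w w' f D : ℕ) (t : Fin f → ℝ) (wt : Fin f → ℕ) (ht : ∀ j, wt j ≤ w ∧ t j ∈ Z (wt j))
    (g : ℕ → ℕ) (u : ∀ n, Fin (g n) → ℝ) (hu : ∀ n ≤ w', Z n ≤ Submodule.span ℚ (Set.range (u n)))
    (κ' : ℕ) (M : ℝ) (hM : 1 ≤ M) :
    ∃ κ : ℝ, 0 < κ ∧ ∃ X₀ : ℝ, ∀ X : ℝ, X₀ ≤ X →
      ((∀ N : ℕ, X ≤ N → (N : ℝ) ≤ X ^ M →
          (∀ v : (Fin f → Fin (D + 1)) → ℤ, (∀ α, |(v α : ℝ)| ≤ (N : ℝ) ^ κ) →
            Good κ N (∑ α, v α * mono t α) ∨
            ∀ p, 1 ≤ p → |∑ α with weight wt α = p, (v α : ℝ) * mono t α| ≤ (N : ℝ) ^ (-(κ * κ'))) ∧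
          (∀ j, t j ≠ 0 → 1 ≤ wt j → ∀ F : ℤ[X], 1 ≤ F.natDegree → F.natDegree ≤ D →
            (∀ i, |(F.coeff i : ℝ)| ≤ (N : ℝ) ^ κ) → Good κ N (aeval (t j) F))) ∨
        (∀ n, 2 ≤ n → n ≤ w' → ∃ W : Submodule ℚ (Fin (g n) → ℚ),
          Module.finrank ℚ W + (n - 3 * (n % 2)) / (2 * w) ≤ g n ∧
          ∀ N : ℕ, X ≤ N → (N : ℝ) ≤ X ^ M → ∀ b : Fin (g n) → ℤ, (∀ i, |(b i : ℝ)| ≤ (N : ℝ) ^ κ) →
            (fun i => (b i : ℚ)) ∉ W → Good κ N ((∑ i, b i * u n i) / den n))) := by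
  have hgood : ∀ (κ : ℝ) (N : ℕ) (θ : ℝ), 0 < (N : ℝ) →
      Pool.Agent.U831.JE.DiscLe θ N ((N : ℝ) ^ (-κ)) → Good κ N θ := by
    intro κ N θ hN h γ u v hu huv hv
    have h1 := h γ u v hu huv hv
    have h2 : (N : ℝ) ^ (-κ) * N = (N : ℝ) ^ (1 - κ) := by
      rw [sub_eq_add_neg, add_comm, Real.rpow_add hN, Real.rpow_one]
    rw [h2] at h1
    exact h1
  obtain ⟨κ, hκ, X₀, hX₀, h⟩ := Pool.Agent.U831.AF.td w w' t wt (fun j => (ht j).2) (fun j => (ht j).1)
    D g u hu (κ' + 1) M hM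
  obtain ⟨X₁, hX₁, h1⟩ := Pool.Agent.U831.AF.one_value (D := D) t wt κ' κ hκ
  refine ⟨κ, hκ, max X₀ X₁, fun X hX => ?_⟩
  have hXX₀ := (le_max_left _ _).trans hX
  have hXX₁ := (le_max_right _ _).trans hX
  rcases h X hXX₀ with hT | hG
  · refine Or.inl fun N hXN hNX => ⟨fun v hv => ?_, fun j hj hwj F hF1 hFD hFc => ?_⟩
    · have hN : 1 ≤ (N : ℝ) := by linarith
      rcases hT N hXN hNX v hv with h2 | h2
      · exact Or.inl (hgood κ N _ (by linarith) h2)
      · refine Or.inr fun p hp => ?_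
        have h3 := h2 p hp
        have hNκ : 1 ≤ (N : ℝ) ^ κ := Real.one_le_rpow hN hκ.le
        have h4 : ((N : ℝ) ^ κ) ^ κ' ≤ ((N : ℝ) ^ κ) ^ (κ' + 1) := pow_le_pow_right₀ hNκ (by omega)
        have h5 : ((N : ℝ) ^ κ) ^ κ' = (N : ℝ) ^ (κ * κ') := by
          rw [← Real.rpow_natCast ((N : ℝ) ^ κ) κ', ← Real.rpow_mul (by linarith)]
        rw [Real.rpow_neg (by linarith), ← h5]
        have h6 : (0 : ℝ) < ((N : ℝ) ^ κ) ^ κ' := by positivity
        rw [← one_div, le_div_iff₀ h6]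
        exact (mul_le_mul_of_nonneg_left h4 (abs_nonneg _)).trans h3
    · exact hgood κ N _ (by linarith) (h1 N (hXX₁.trans hXN)
        (fun v hv => hT N hXN hNX v hv) j hj hwj F hF1 hFD hFc)
  · refine Or.inr fun n hn2 hnw => ⟨_, hG n hn2 hnw, fun N hXN hNX b hb hW => ?_⟩
    refine hgood κ N _ (by linarith) ?_
    by_contra hcon
    apply hW
    refine Submodule.subset_span ⟨b, ⟨N, hXN, hNX, hb, ?_⟩, rfl⟩
    have e : Pool.Agent.U831.AF.form (fun i => u n i / Pool.Agent.U831.AF.den n) b =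
        (∑ i, b i * u n i) / den n := by
      unfold Pool.Agent.U831.AF.form
      rw [Finset.sum_div]
      exact Finset.sum_congr rfl fun i _ => (mul_div_assoc _ _ _).symm
    rw [e]
    exact hcon

end Pool.Agent.Results.MP_56e040_nt.DimensionOrTranscendence
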